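import Mathlib

set_option autoImplicit false

namespace Pool.Agent.Lib.MP_7f88e4_nt.MP

/-- The powers of two and of three have a common period at most `|k| ^ c` modulo `k`. -/
def ShortPeriod (c : ℝ) (k : ℤ) : Prop :=
  ∃ l : ℕ, 1 ≤ l ∧ (l : ℝ) ≤ |(k : ℝ)| ^ c ∧ k ∣ 2 ^ l - 1 ∧ k ∣ 3 ^ l - 1

end Pool.Agent.Lib.MP_7f88e4_nt.MP
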