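import Pool.Agent.Lib.MP_7f88e4_nt.MP.Fin

set_option autoImplicit false

namespace Pool.Agent.Lib.MP_7f88e4_nt.MP

open Finset PS

/-- The orbit of `n` reaches a periodic point of size at most `N`. -/
def Trap (k : ℤ) (N : ℝ) (n : ℤ) : Prop :=
  ∃ m p : ℕ, 1 ≤ p ∧ (T k)^[m + p] n = (T k)^[m] n ∧ |(((T k)^[m] n : ℤ) : ℝ)| ≤ N

theorem last_visit {k n : ℤ} {N : ℝ} (h : ¬ Trap k N n) {j : ℕ}
    (hj : |(((T k)^[j] n : ℤ) : ℝ)| ≤ N) :
    ∃ m : ℕ, |(((T k)^[m] n : ℤ) : ℝ)| ≤ N ∧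
      ∀ i : ℕ, N < |(((T k)^[i] ((T k)^[m + 1] n) : ℤ) : ℝ)| := by
  by_cases hf : {j : ℕ | |(((T k)^[j] n : ℤ) : ℝ)| ≤ N}.Finite
  · obtain ⟨m, hm, hmax⟩ := Set.exists_max_image _ id hf ⟨j, hj⟩
    refine ⟨m, hm, fun i => ?_⟩
    rw [← Function.iterate_add_apply]
    by_contra hc
    have : i + (m + 1) ≤ m := hmax _ (not_lt.1 hc)
    omega
  · exfalso
    obtain ⟨a, ha, b, -, hab, he⟩ := Set.Infinite.exists_lt_map_eq_of_mapsTo
      (f := fun j : ℕ => (T k)^[j] n) hf (t := Set.Icc (-⌊N⌋) ⌊N⌋) (fun a ha => by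
        have h1 : |(T k)^[a] n| ≤ ⌊N⌋ := Int.le_floor.2 (by
          have : |(((T k)^[a] n : ℤ) : ℝ)| ≤ N := ha
          exact_mod_cast this)
        exact abs_le.1 h1) (Set.finite_Icc _ _)
    refine h ⟨a, b - a, by omega, ?_, ha⟩
    rw [show a + (b - a) = b by omega]
    exact he.symm

theorem two_T {k : ℤ} (hk : Odd k) (y : ℤ) :
    (2 : ℝ) * (T k y : ℤ) = if Odd y then 3 * (y : ℝ) + k else y := by
  rw [Int.odd_iff] at hk
  unfold T
  split_ifs with h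
  · rw [Int.odd_iff] at h
    exact_mod_cast (by omega : 2 * ((3 * y + k) / 2) = 3 * y + k)
  · rw [Int.odd_iff] at h
    exact_mod_cast (by omega : 2 * (y / 2) = y)

theorem step_le {k : ℤ} (hk : Odd k) (y : ℤ) :
    2 * |((T k y : ℤ) : ℝ)| ≤ if Odd y then 3 * |(y : ℝ)| + |(k : ℝ)| else |(y : ℝ)| := by
  have h := two_T hk y
  rw [show 2 * |((T k y : ℤ) : ℝ)| = |(2 : ℝ) * (T k y : ℤ)| by rw [abs_mul, abs_two], h]
  split_ifs
  · refine (abs_add_le _ _).trans (le_of_eq ?_)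
    rw [abs_mul, abs_of_pos (by norm_num : (0 : ℝ) < 3)]
  · exact le_rfl

theorem drop_le {k : ℤ} (hk : Odd k) {z : ℤ}
    (h : ∀ i : ℕ, 100 * |(k : ℝ)| ≤ |(((T k)^[i] z : ℤ) : ℝ)|) (q : ℕ) :
    2 ^ q * |(((T k)^[q] z : ℤ) : ℝ)| ≤ (301 / 100) ^ ones (fw k z q) * |(z : ℝ)| := by
  induction q with
  | zero => simp [fw]
  | succ q ih =>
    have h1 := step_le hk ((T k)^[q] z)
    have h2 := h q
    rw [Function.iterate_succ_apply', fw, pow_succ, mul_assoc]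
    have h3 : (0 : ℝ) < 2 ^ q := by positivity
    by_cases ho : Odd ((T k)^[q] z)
    · rw [if_pos ho] at h1
      rw [decide_eq_true ho, ones_true, pow_succ]
      nlinarith
    · rw [if_neg ho] at h1
      rw [decide_eq_false ho, ones_false]
      nlinarith

theorem many_of {q a : ℕ} (hq : 30 ≤ q) (h : (2 : ℝ) ^ q < 2 * (301 / 100) ^ a) :
    (1 / 2 + 1 / 10 : ℝ) * q < a := by
  by_contra hc
  have h1 : 5 * a ≤ 3 * q := by
    have : (5 * a : ℝ) ≤ 3 * q := by linarith [not_lt.1 hc]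
    exact_mod_cast this
  have h2 := pow_lt_pow_left₀ h (by positivity) (by norm_num : 5 ≠ 0)
  have h3 : (((301 / 100 : ℝ)) ^ a) ^ 5 ≤ (28 : ℝ) ^ q := by
    rw [← pow_mul, mul_comm]
    refine (pow_le_pow_right₀ (by norm_num) h1).trans ?_
    rw [pow_mul]
    exact pow_le_pow_left₀ (by positivity) (by norm_num) q
  have h4 : (32 : ℝ) ≤ (8 / 7) ^ q :=
    le_trans (by norm_num) (pow_le_pow_right₀ (by norm_num : (1 : ℝ) ≤ 8 / 7) hq)
  have h5 : ((2 : ℝ) ^ q) ^ 5 = (8 / 7) ^ q * 28 ^ q := by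
    rw [← pow_mul, mul_comm, pow_mul, ← mul_pow]
    norm_num
  rw [h5, mul_pow] at h2
  have h6 : (0 : ℝ) < 28 ^ q := by positivity
  nlinarith

/-- Few points just above a level stay above it for ever. -/
theorem exits {k : ℤ} (hk : Odd k) {N : ℝ} (hN : 100 * |(k : ℝ)| ≤ N) (hN2 : 2 ^ 30 ≤ N)
    (R : Finset ℤ) (hR : ∀ z ∈ R, |(z : ℝ)| ≤ 2 * N ∧ ∀ i : ℕ, N < |(((T k)^[i] z : ℤ) : ℝ)|) :
    (R.card : ℝ) ≤ 27 * N * N ^ (-(1 / 50 : ℝ)) := by
  classical
  have hN0 : 0 < N := by linarith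
  set q := Nat.log 2 ⌊N⌋₊ with hq
  have h2 : 2 ^ 30 ≤ ⌊N⌋₊ := Nat.le_floor (by exact_mod_cast hN2)
  have hq30 : 30 ≤ q := Nat.le_log_of_pow_le Nat.one_lt_two h2
  have a0 : (2 : ℝ) ^ q ≤ N := by
    refine le_trans ?_ (Nat.floor_le hN0.le)
    exact_mod_cast Nat.pow_log_le_self 2 (by omega)
  have a1 : N ≤ 2 ^ (q + 1) := by
    refine (Nat.lt_floor_add_one N).le.trans ?_
    exact_mod_cast Nat.lt_pow_succ_log_self (b := 2) (by norm_num) ⌊N⌋₊
  have h3 : (R.card : ℝ) ≤ 2 ^ q * Real.exp (-(2 * (1 / 10) ^ 2) * q) * 9 := by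
    rw [card_eq_sum_card_fiberwise (f := fun r => fw k r q)
      (t := (W q).filter fun w => (1 / 2 + 1 / 10 : ℝ) * q < ones w), Nat.cast_sum]
    · refine (sum_le_card_nsmul _ _ 9 fun w _ => ?_).trans ?_
      · refine (card_cong _ (M := 2 ^ q) (by positivity) (l := 4 * N) (by positivity)
          ?_ ?_).trans ?_
        · intro x hx y hy
          exact dvd_of_fw hk ((mem_filter.1 hx).2.trans (mem_filter.1 hy).2.symm)
        · intro x hx y hy
          linarith [abs_le.1 (hR x (mem_filter.1 hx).1).1, abs_le.1 (hR y (mem_filter.1 hy).1).1]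
        · push_cast
          rw [pow_succ] at a1
          have : 4 * N / 2 ^ q ≤ 8 := by
            rw [div_le_iff₀ (by positivity)]
            linarith
          linarith
      · rw [nsmul_eq_mul]
        exact mul_le_mul_of_nonneg_right (rise_words (by norm_num) q) (by positivity)
    · intro z hz
      obtain ⟨b1, b2⟩ := hR z hz
      refine mem_filter.2 ⟨mem_W.2 (fw_length _ _ _), many_of hq30 ?_⟩
      have b3 := drop_le hk (z := z) (fun i => hN.trans (b2 i).le) q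
      have b4 := mul_lt_mul_of_pos_left (b2 q) (by positivity : (0 : ℝ) < 2 ^ q)
      have b5 := mul_le_mul_of_nonneg_left b1
        (by positivity : (0 : ℝ) ≤ (301 / 100) ^ ones (fw k z q))
      refine lt_of_mul_lt_mul_right ?_ hN0.le
      linarith
  have h4 : Real.exp (-(2 * (1 / 10) ^ 2) * q) ≤ 3 * N ^ (-(1 / 50 : ℝ)) := by
    have a2 := Real.log_le_log hN0 a1
    have a3 : Real.log 2 ≤ 1 := by linarith [Real.log_two_lt_d9]
    rw [Real.log_pow] at a2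
    have a4 := a2.trans (mul_le_of_le_one_right (by positivity) a3)
    have a5 : Real.exp 1 ≤ 3 := by linarith [Real.exp_one_lt_d9]
    refine le_trans ?_ (mul_le_mul_of_nonneg_right a5 (by positivity))
    rw [Real.rpow_def_of_pos hN0, ← Real.exp_add]
    refine Real.exp_le_exp.2 ?_
    push_cast at a4
    linarith
  refine h3.trans ?_
  have h5 := mul_le_mul a0 h4 (by positivity) hN0.le
  linarith

theorem pow_mod_eq {k x : ℤ} {l : ℕ} (h : k ∣ x ^ l - 1) (j : ℕ) : x ^ j ≡ x ^ (j % l) [ZMOD k] := by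
  have h1 : x ^ l ≡ 1 [ZMOD k] := (Int.modEq_iff_dvd.2 h).symm
  have h2 := (h1.pow (j / l)).mul_right (x ^ (j % l))
  rwa [← pow_mul, ← pow_add, Nat.div_add_mod, one_pow, one_mul] at h2

/-- An orbit stays in few classes modulo `k`. -/
theorem class_mem {k : ℤ} (hk : Odd k) {l : ℕ} (hl : 1 ≤ l) (h2 : k ∣ 2 ^ l - 1)
    (h3 : k ∣ 3 ^ l - 1) (n : ℤ) (j : ℕ) :
    ∃ a ∈ range l ×ˢ range l, k ∣ n - 2 ^ a.1 * 3 ^ a.2 * (T k)^[j] n := by
  have hg := goes_fw hk n j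
  unfold Goes at hg
  rw [fw_length] at hg
  generalize ones (fw k n j) = o at hg
  refine ⟨(j % l, ((l - 1) * o) % l), by
    simp only [mem_product, mem_range]
    exact ⟨Nat.mod_lt _ hl, Nat.mod_lt _ hl⟩, ?_⟩
  have a1 := ((pow_mod_eq h2 j).mul (pow_mod_eq h3 ((l - 1) * o))).mul_right ((T k)^[j] n)
  have a2 : (3 : ℤ) ^ (l * o) ≡ 1 [ZMOD k] := by
    have := pow_mod_eq h3 (l * o)
    rwa [Nat.mul_mod_right, pow_zero] at this
  have a3 : (3 : ℤ) ^ (l * o) = 3 ^ ((l - 1) * o) * 3 ^ o := by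
    rw [← pow_add]
    congr 1
    obtain ⟨m, rfl⟩ := Nat.exists_eq_add_of_le' hl
    rw [Nat.add_sub_cancel]
    ring
  have a4 : 2 ^ j * 3 ^ ((l - 1) * o) * (T k)^[j] n ≡ n [ZMOD k] := by
    have a5 := a2.mul_right n
    rw [one_mul] at a5
    refine Int.ModEq.trans (Int.modEq_iff_dvd.2 ⟨-(3 ^ ((l - 1) * o) * rho (fw k n j)), ?_⟩) a5
    rw [a3]
    linear_combination (-(3 : ℤ) ^ ((l - 1) * o)) * hg
  exact (a1.symm.trans a4).dvd

/-- Most orbits are trapped when the powers of two and three have a short period modulo `k`. -/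
theorem trap_count : ∃ c : ℝ, 0 < c ∧ ∃ C : ℝ, 0 ≤ C ∧ ∀ (k : ℤ) (l : ℕ) (X : ℝ) (B : Finset ℤ),
    Odd k → ¬ 3 ∣ k → 1 ≤ l → k ∣ 2 ^ l - 1 → k ∣ 3 ^ l - 1 → |(k : ℝ)| ≤ X →
    (∀ n ∈ B, |(n : ℝ)| ≤ X ∧ ¬ Trap k (|(k : ℝ)| ^ (1 / 100 : ℝ) * |(k : ℝ)|) n) →
    (B.card : ℝ) ≤ C * l ^ 2 * X * |(k : ℝ)| ^ (-c) := by
  classical
  obtain ⟨c1, hc1, C1, hC1, h1⟩ := count_fin (A := 2 / Real.log (4 / 3) + 1) (by linarith)
  refine ⟨min c1 1 / 100, by positivity, C1 + 81 + 3 * 2 ^ 30, by positivity,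
    fun k l X B hk hk3 hl h2 h3 hX hB => ?_⟩
  have hk0 := ne_of_odd hk
  have hk1 : (1 : ℝ) ≤ |(k : ℝ)| := by exact_mod_cast Int.one_le_abs hk0
  have hX1 : 1 ≤ X := hk1.trans hX
  have hl1 : (1 : ℝ) ≤ (l : ℝ) ^ 2 := one_le_pow₀ (by exact_mod_cast hl)
  obtain ⟨M, hM⟩ : ∃ M, |(k : ℝ)| ^ (1 / 100 : ℝ) = M := ⟨_, rfl⟩
  have hM1 : 1 ≤ M := hM ▸ Real.one_le_rpow hk1 (by norm_num)
  have hM0 : 0 < M := by linarith
  have hkM : |(k : ℝ)| = M ^ (100 : ℝ) := by
    rw [← hM, ← Real.rpow_mul (by linarith)]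
    norm_num
  have e1 : |(k : ℝ)| ^ (-(min c1 1 / 100)) = M ^ (-min c1 1) := by
    rw [hkM, ← Real.rpow_mul hM0.le]
    congr 1
    ring
  rw [hM] at hB
  rw [e1]
  have e2 : M ^ (-c1) ≤ M ^ (-min c1 1) :=
    Real.rpow_le_rpow_of_exponent_le hM1 (neg_le_neg (min_le_left _ _))
  have e3 : M ^ (-1 : ℝ) ≤ M ^ (-min c1 1) :=
    Real.rpow_le_rpow_of_exponent_le hM1 (neg_le_neg (min_le_right _ _))
  have e4 : 0 < M ^ (-min c1 1) := Real.rpow_pos_of_pos hM0 _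
  generalize M ^ (-min c1 1) = θ at e2 e3 e4
  have e5 : X * θ ≤ l ^ 2 * X * θ := by
    rw [mul_assoc]
    exact le_mul_of_one_le_left (by positivity) hl1
  by_cases hbig : 2 ^ 30 ≤ M
  · set P : ℤ → Prop := fun n => ∀ j : ℕ, M * |(k : ℝ)| < |(((T k)^[j] n : ℤ) : ℝ)| with hP
    rw [← card_filter_add_card_filter_not (s := B) P, Nat.cast_add]
    have b1 : ((B.filter P).card : ℝ) ≤ C1 * X * M ^ (-c1) :=
      h1 k M X _ hk hk3 hM1 hX1 fun n hn =>
        ⟨(hB n (mem_filter.1 hn).1).1, (mem_filter.1 hn).2 0, fun j _ => (mem_filter.1 hn).2 j⟩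
    have hex : ∀ n ∈ B.filter fun n => ¬ P n, ∃ z : ℤ, (|(z : ℝ)| ≤ 2 * (M * |(k : ℝ)|) ∧
        ∀ i : ℕ, M * |(k : ℝ)| < |(((T k)^[i] z : ℤ) : ℝ)|) ∧
        ∃ a ∈ range l ×ˢ range l, k ∣ n - 2 ^ a.1 * 3 ^ a.2 * z := by
      intro n hn
      obtain ⟨hn1, hn2⟩ := mem_filter.1 hn
      obtain ⟨j, hj⟩ := not_forall.1 hn2
      obtain ⟨m, hm1, hm2⟩ := last_visit (hB n hn1).2 (not_lt.1 hj)
      refine ⟨_, ⟨?_, hm2⟩, class_mem hk hl h2 h3 n (m + 1)⟩
      have a1 := step_le hk ((T k)^[m] n)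
      have a2 : |(k : ℝ)| ≤ M * |(k : ℝ)| := le_mul_of_one_le_left (by linarith) hM1
      rw [Function.iterate_succ_apply']
      split_ifs at a1 <;> linarith
    choose! z hz a ha hd using hex
    have b2 := exits hk (N := M * |(k : ℝ)|)
      (mul_le_mul_of_nonneg_right (by linarith) (by linarith))
      (hbig.trans (le_mul_of_one_le_right hM0.le hk1)) ((B.filter fun n => ¬ P n).image z) (by
        simp only [mem_image]
        rintro _ ⟨n, hn, rfl⟩
        exact hz n hn)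
    have b3 : ((B.filter fun n => ¬ P n).card : ℝ)
        ≤ (l ^ 2 * ((B.filter fun n => ¬ P n).image z).card) * (3 * X / |(k : ℝ)|) := by
      rw [card_eq_sum_card_fiberwise (f := fun n => (a n, z n))
        (t := (range l ×ˢ range l) ×ˢ (B.filter fun n => ¬ P n).image z)
        fun n hn => mem_product.2 ⟨ha n hn, mem_image_of_mem _ hn⟩, Nat.cast_sum]
      refine (sum_le_card_nsmul _ _ (3 * X / |(k : ℝ)|) fun w _ => ?_).trans (le_of_eq ?_)
      · refine (card_cong _ (M := |k|) (abs_pos.2 hk0) (l := 2 * X) (by positivity)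
          ?_ ?_).trans ?_
        · intro x hx y hy
          obtain ⟨x1, x2⟩ := mem_filter.1 hx
          obtain ⟨y1, y2⟩ := mem_filter.1 hy
          have := dvd_sub (hd x x1) (hd y y1)
          obtain ⟨u1, u2⟩ := Prod.mk.inj (x2.trans y2.symm)
          rw [u1, u2, sub_sub_sub_cancel_right] at this
          exact (abs_dvd _ _).2 this
        · intro x hx y hy
          linarith [abs_le.1 (hB x (mem_filter.1 (mem_filter.1 hx).1).1).1,
            abs_le.1 (hB y (mem_filter.1 (mem_filter.1 hy).1).1).1]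
        · push_cast
          rw [div_add_one (by positivity)]
          exact div_le_div_of_nonneg_right (by linarith) (by positivity)
      · rw [card_product, card_product, card_range, nsmul_eq_mul]
        push_cast
        ring
    have b4 : (M * |(k : ℝ)|) * (M * |(k : ℝ)|) ^ (-(1 / 50 : ℝ)) / |(k : ℝ)| ≤ M ^ (-1 : ℝ) := by
      rw [mul_assoc, mul_comm |(k : ℝ)|, ← mul_assoc, mul_div_cancel_right₀ _ (by positivity), hkM]
      nth_rewrite 1 [← Real.rpow_one M]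
      nth_rewrite 2 [← Real.rpow_one M]
      rw [← Real.rpow_add hM0, ← Real.rpow_mul hM0.le, ← Real.rpow_add hM0]
      exact Real.rpow_le_rpow_of_exponent_le hM1 (by norm_num)
    have b5 : ((B.filter fun n => ¬ P n).card : ℝ) ≤ 81 * (l ^ 2 * X * θ) := by
      refine b3.trans ((mul_le_mul_of_nonneg_right (mul_le_mul_of_nonneg_left b2 (by positivity))
        (by positivity)).trans ?_)
      have := mul_le_mul_of_nonneg_left (b4.trans e3) (by positivity : 0 ≤ 81 * (l ^ 2 * X))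
      refine le_trans (le_of_eq ?_) (this.trans (le_of_eq ?_)) <;> ring
    have b6 : C1 * X * M ^ (-c1) ≤ C1 * (l ^ 2 * X * θ) := by
      rw [mul_assoc]
      exact mul_le_mul_of_nonneg_left
        ((mul_le_mul_of_nonneg_left e2 (by linarith)).trans e5) hC1
    have b7 : 0 ≤ 3 * 2 ^ 30 * (l ^ 2 * X * θ) := by positivity
    linarith
  · have b2 : (B.card : ℝ) ≤ 2 * X / (1 : ℤ) + 1 :=
      card_cong B one_pos (by positivity) (fun _ _ _ _ => one_dvd _) fun x hx y hy => by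
        linarith [abs_le.1 (hB x hx).1, abs_le.1 (hB y hy).1]
    rw [Int.cast_one, div_one] at b2
    have b3 : 1 ≤ 2 ^ 30 * θ := by
      rw [Real.rpow_neg_one] at e3
      have := mul_le_mul (not_le.1 hbig).le e3 (by positivity) (by positivity)
      rwa [mul_inv_cancel₀ hM0.ne'] at this
    have b4 := mul_le_mul_of_nonneg_left b3 (by linarith : 0 ≤ 3 * X)
    have b7 : 0 ≤ (C1 + 81) * (l ^ 2 * X * θ) := by positivity
    linarith

end Pool.Agent.Lib.MP_7f88e4_nt.MP
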