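import Pool.Agent.Lib.MP_7f88e4_nt.MP.Fst

set_option autoImplicit false

namespace Pool.Agent.Lib.MP_7f88e4_nt.MP

open Finset PS

theorem rise_sum {δ : ℝ} (hδ : 0 < δ) : ∃ C : ℝ, 0 ≤ C ∧ ∀ (k : ℤ) (R : Finset ℤ) (e0 : ℕ), Odd k →
    1000 ≤ e0 → (∀ r ∈ R, e0 ≤ lv k r ∧ Rise (1 / 2 + δ) k r) →
    ∑ r ∈ R, (∑ p ∈ range (100 * (2 * qq k r + 2 + 1) + 1), F k p r) / |(r : ℝ)|
      ≤ C * Real.exp (-(δ ^ 2 / 1000)) ^ e0 := by
  have hθ : Real.exp (-(δ ^ 2 / 1000)) < 1 := by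
    rw [Real.exp_lt_one_iff, neg_lt_zero]
    positivity
  have hθ' := sub_pos.2 hθ
  refine ⟨8 * ((301 + 200 / δ ^ 2) * Real.exp (δ ^ 2)) / (1 - Real.exp (-(δ ^ 2 / 1000))),
    by positivity, fun k R e0 hk he hR => ?_⟩
  have hk1 : (0 : ℝ) < |(k : ℝ)| := abs_pos.2 (by exact_mod_cast ne_of_odd hk)
  rw [← sum_fiberwise_of_maps_to (g := fun r : ℤ => lv k r)
    (t := Ico e0 (R.sup (fun r : ℤ => lv k r) + 1)) fun r hr => mem_Ico.2
      ⟨(hR r hr).1, Nat.lt_succ_of_le (le_sup (f := fun r : ℤ => lv k r) hr)⟩]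
  refine (sum_le_sum (g := fun e => 8 * ((301 + 200 / δ ^ 2) * Real.exp (δ ^ 2))
    * Real.exp (-(δ ^ 2 / 1000)) ^ e) fun e he' => ?_).trans ?_
  · have h0 := (mem_Ico.1 he').1
    have h1 : ∀ r ∈ R.filter fun r : ℤ => lv k r = e,
        (∑ p ∈ range (100 * (2 * qq k r + 2 + 1) + 1), F k p r) / |(r : ℝ)|
          ≤ (∑ p ∈ range (100 * (2 * (e / 1000) + 2 + 1) + 1), F k p r)
            / (|(k : ℝ)| * 2 ^ e) := by
      intro r hr
      have a := (mem_filter.1 hr).2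
      have c := lv_le (k := k) (b := r) (by omega)
      rw [a] at c
      rw [qq, a]
      refine div_le_div_of_nonneg_left (sum_nonneg fun p _ => F_nonneg k p r) (by positivity) ?_
      rw [← Int.cast_abs, ← Int.cast_abs, ← Int.natCast_natAbs, ← Int.natCast_natAbs]
      exact_mod_cast c
    refine (sum_le_sum h1).trans ?_
    rw [← sum_div, sum_comm, div_le_iff₀ (by positivity)]
    refine (sum_le_card_nsmul _ _ _ fun p hp => shell hk hδ.le _ (e := e) (by omega)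
      (by have := mem_range.1 hp; omega)
      fun r hr => ⟨(mem_filter.1 hr).2, (hR r (mem_filter.1 hr).1).2⟩).trans ?_
    rw [card_range, nsmul_eq_mul]
    have h2 := mul_le_mul_of_nonneg_left (lin_exp (η := δ ^ 2) (by positivity) e)
      (by positivity : (0 : ℝ) ≤ 8 * (|(k : ℝ)| * 2 ^ e))
    linarith
  · rw [← mul_sum, div_mul_eq_mul_div, mul_div_assoc]
    exact mul_le_mul_of_nonneg_left (geom_sum_Ico_le_of_lt_one (Real.exp_pos _).le hθ)
      (by positivity)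

theorem card_le_cnt {k : ℤ} (hk : Odd k) (B : Finset ℤ) (i : ℤ → ℕ) {X : ℝ}
    (h : ∀ n ∈ B, |(n : ℝ)| ≤ X ∧ 1 ≤ qq k ((T k)^[i n] n) ∧
      Good (2 * qq k ((T k)^[i n] n) + 2) (fw k n (i n))) :
    (B.card : ℝ) ≤ ∑ r ∈ B.image fun n => (T k)^[i n] n, ∑ s ∈ range (B.sup i + 1),
      ((Cnt k r (2 * qq k r + 2) (2 * X / |(r : ℝ)|) s).card : ℝ) := by
  classical
  have hk1 : (0 : ℝ) < |(k : ℝ)| := abs_pos.2 (by exact_mod_cast ne_of_odd hk)
  rw [card_eq_sum_card_fiberwise (f := fun n => (T k)^[i n] n)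
    (t := B.image fun n => (T k)^[i n] n) fun n hn => mem_image_of_mem _ hn, Nat.cast_sum]
  refine sum_le_sum fun r _ => ?_
  rw [card_eq_sum_card_fiberwise (f := i) (t := range (B.sup i + 1)) fun n hn =>
    mem_range.2 (Nat.lt_succ_of_le (le_sup (mem_filter.1 hn).1)), Nat.cast_sum]
  refine sum_le_sum fun s _ => Nat.cast_le.2 ?_
  have key : ∀ n ∈ (B.filter fun n => (T k)^[i n] n = r).filter fun n => i n = s,
      Goes k (fw k n s) n r := by
    intro n hn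
    simp only [mem_filter] at hn
    rw [← hn.1.2, ← hn.2]
    exact goes_fw hk n _
  refine card_le_card_of_injOn (fun n => fw k n s) ?_ ?_
  · intro n hn
    have h1 := key n hn
    simp only [coe_filter, mem_filter, Set.mem_ofPred_eq] at hn
    obtain ⟨h2, h3, h4⟩ := h n hn.1.1
    rw [hn.1.2] at h3 h4
    rw [hn.2] at h4
    have h5 := half_le h3 h1 h4
    have h6 : (0 : ℝ) < |(r : ℝ)| := lt_of_lt_of_le (by positivity) (big_real h3)
    simp only [Cnt, coe_filter, Set.mem_ofPred_eq, mem_W, fw_length, true_and]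
    refine ⟨h1.valid, h4, ?_⟩
    rw [div_mul_eq_mul_div, one_le_div h6]
    nlinarith [om_pos (fw k n s)]
  · intro n hn m hm hnm
    have hnm' : fw k n s = fw k m s := hnm
    rw [← (key n hn).pre_eq, hnm', (key m hm).pre_eq]

theorem floor_le_div {k b : ℤ} (hk : k ≠ 0) {N : ℝ} (hb : N * |(k : ℝ)| < |(b : ℝ)|) :
    ⌊N⌋₊ ≤ b.natAbs / k.natAbs := by
  rw [Nat.le_div_iff_mul_le (by omega)]
  rcases le_or_gt 0 N with hN | hN
  · have h1 := (mul_le_mul_of_nonneg_right (Nat.floor_le hN) (abs_nonneg (k : ℝ))).trans hb.le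
    rw [← Int.cast_abs, ← Int.cast_abs, ← Int.natCast_natAbs, ← Int.natCast_natAbs] at h1
    exact_mod_cast h1
  · simp [Nat.floor_of_nonpos hN.le]

/-- The scale invariant power saving. -/
theorem count_fin {A : ℝ} (hA : 2 / Real.log (4 / 3) < A) : ∃ c : ℝ, 0 < c ∧ ∃ C : ℝ, 0 ≤ C ∧
    ∀ (k : ℤ) (N X : ℝ) (B : Finset ℤ), Odd k → ¬ 3 ∣ k → 1 ≤ N → 1 ≤ X →
      (∀ n ∈ B, |(n : ℝ)| ≤ X ∧ N * |(k : ℝ)| < |(n : ℝ)| ∧
        ∀ j : ℕ, (j : ℝ) ≤ A * Real.log (|(n : ℝ)| / |(k : ℝ)|) →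
          N * |(k : ℝ)| < |(((T k)^[j] n : ℤ) : ℝ)|) →
      (B.card : ℝ) ≤ C * X * N ^ (-c) := by
  have l3 : 0 < Real.log 3 := Real.log_pos (by norm_num)
  have l43 : 0 < Real.log (4 / 3) := Real.log_pos (by norm_num)
  have hA0 : 0 < A := lt_trans (by positivity) hA
  have e43 : Real.log (4 / 3) = 2 * Real.log 2 - Real.log 3 := by
    rw [Real.log_div (by norm_num) (by norm_num), show (4 : ℝ) = 2 ^ 2 by norm_num, Real.log_pow]
    norm_num
  have h1 : 1 / A < Real.log (4 / 3) / 2 := by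
    rw [div_lt_iff₀ l43] at hA
    rw [div_lt_div_iff₀ hA0 (by norm_num)]
    linarith
  obtain ⟨δ, hδ, hδ1, hδ2⟩ : ∃ δ : ℝ, 0 < δ ∧ δ ≤ 1 / 18 ∧
      1 / A ≤ Real.log 2 - (1 / 2 + δ) * Real.log 3 := by
    refine ⟨min (1 / 18) ((Real.log (4 / 3) / 2 - 1 / A) / Real.log 3),
      lt_min (by norm_num) (div_pos (sub_pos.2 h1) l3), min_le_left _ _, ?_⟩
    have := min_le_right (1 / 18) ((Real.log (4 / 3) / 2 - 1 / A) / Real.log 3)
    rw [le_div_iff₀ l3] at this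
    linarith
  obtain ⟨C1, hC1, hv⟩ := visits
  obtain ⟨C2, hC2, hs⟩ := rise_sum hδ
  refine ⟨δ ^ 2 / 1000, by positivity,
    6 + 4 * C1 * (C2 * Real.exp (δ ^ 2 / 1000)), by positivity,
    fun k N X B hk hk3 hN hX hB => ?_⟩
  have hk0 : k ≠ 0 := ne_of_odd hk
  have hk1 : (1 : ℝ) ≤ |(k : ℝ)| := by exact_mod_cast Int.one_le_abs hk0
  have hNc : 0 < N ^ (-(δ ^ 2 / 1000)) := Real.rpow_pos_of_pos (by linarith) _
  rw [add_mul, add_mul]
  by_cases hNk : (2 : ℝ) ^ 1000 ≤ N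
  · have h2 : 2 ^ 1000 ≤ ⌊N⌋₊ := by
      refine Nat.le_floor (le_trans ?_ hNk)
      rw [Nat.cast_pow, Nat.cast_ofNat]
    have h2' : 1000 ≤ Nat.log 2 ⌊N⌋₊ := Nat.le_log_of_pow_le Nat.one_lt_two h2
    clear h2 hNk
    have hlv : ∀ b : ℤ, N * |(k : ℝ)| < |(b : ℝ)| → Nat.log 2 ⌊N⌋₊ ≤ lv k b :=
      fun b hb => Nat.log_mono_right (floor_le_div hk0 hb)
    have hbig : ∀ n ∈ B, ∀ t : ℕ, (t : ℝ) ≤ A * Real.log (|(n : ℝ)| / |(k : ℝ)|) →
        1 ≤ qq k ((T k)^[t] n) := fun n hn t ht => by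
      have := hlv _ ((hB n hn).2.2 t ht)
      unfold qq
      omega
    have hne : ∀ n ∈ B, |(k : ℝ)| ≤ |(n : ℝ)| := fun n hn =>
      (le_mul_of_one_le_left (by linarith) hN).trans (hB n hn).2.1.le
    choose! i hi using fun n hn => exists_first hk (β := 1 / 2 + δ) (by positivity)
      (by linarith) hA0 hδ2 (hne n hn) (hbig n hn)
    have h3 := hs k (B.image fun n => (T k)^[i n] n) (Nat.log 2 ⌊N⌋₊) hk h2' (by
        simp only [mem_image]
        rintro _ ⟨n, hn, rfl⟩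
        exact ⟨hlv _ ((hB n hn).2.2 _ (hi n hn).1), (hi n hn).2.1⟩)
    have h4 : Real.exp (-(δ ^ 2 / 1000)) ^ Nat.log 2 ⌊N⌋₊
        ≤ Real.exp (δ ^ 2 / 1000) * N ^ (-(δ ^ 2 / 1000)) := by
      have a1 : N ≤ 2 ^ (Nat.log 2 ⌊N⌋₊ + 1) := by
        refine (Nat.lt_floor_add_one N).le.trans ?_
        exact_mod_cast Nat.lt_pow_succ_log_self (b := 2) (by norm_num) ⌊N⌋₊
      have a2 := Real.log_le_log (by linarith) a1
      have a3 : Real.log 2 ≤ 1 := by linarith [Real.log_two_lt_d9]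
      rw [Real.log_pow] at a2
      have a4 := a2.trans (mul_le_of_le_one_right (by positivity) a3)
      rw [Real.rpow_def_of_pos (by linarith), ← Real.exp_nat_mul, ← Real.exp_add]
      refine Real.exp_le_exp.2 ?_
      push_cast at a4
      nlinarith [mul_le_mul_of_nonneg_left a4 (by positivity : 0 ≤ δ ^ 2 / 1000)]
    refine (card_le_cnt hk B i fun n hn =>
      ⟨(hB n hn).1, hbig n hn _ (hi n hn).1, (hi n hn).2.2⟩).trans ?_
    refine (sum_le_sum (g := fun r : ℤ => 4 * C1 * X *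
      ((∑ p ∈ range (100 * (2 * qq k r + 2 + 1) + 1), F k p r) / |(r : ℝ)|))
      fun r hr => ?_).trans ?_
    · obtain ⟨n, hn, rfl⟩ := mem_image.1 hr
      have a1 : (0 : ℝ) < |(((T k)^[i n] n : ℤ) : ℝ)| :=
        lt_trans (by positivity) ((hB n hn).2.2 _ (hi n hn).1)
      refine (hv k _ _ _ _ hk hk3 (by positivity)).trans (le_of_eq ?_)
      ring
    · rw [← mul_sum]
      refine le_add_of_nonneg_of_le (by positivity) ?_
      refine (mul_le_mul_of_nonneg_left (h3.trans (mul_le_mul_of_nonneg_left h4 hC2))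
        (by positivity)).trans (le_of_eq (by ring))
  · refine le_add_of_le_of_nonneg ?_ (by positivity)
    have h2 : (B.card : ℝ) ≤ 2 * X / (1 : ℤ) + 1 :=
      card_cong B one_pos (by positivity) (fun _ _ _ _ => one_dvd _) fun x hx y hy => by
        linarith [abs_le.1 (hB x hx).1, abs_le.1 (hB y hy).1]
    have h3 : N ^ (δ ^ 2 / 1000) ≤ 2 := by
      calc N ^ (δ ^ 2 / 1000) ≤ N ^ ((1000 : ℕ) : ℝ)⁻¹ :=
            Real.rpow_le_rpow_of_exponent_le hN (by norm_num; nlinarith)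
        _ ≤ ((2 : ℝ) ^ 1000) ^ ((1000 : ℕ) : ℝ)⁻¹ :=
            Real.rpow_le_rpow (by linarith) (not_le.1 hNk).le (by positivity)
        _ = _ := Real.pow_rpow_inv_natCast (by positivity) (by norm_num)
    rw [Real.rpow_neg (by linarith), ← div_eq_mul_inv,
      le_div_iff₀ (Real.rpow_pos_of_pos (by linarith) _)]
    have h4 : (B.card : ℝ) ≤ 3 * X := by
      rw [Int.cast_one, div_one] at h2
      linarith
    exact (mul_le_mul h4 h3 (by positivity) (by positivity)).trans (le_of_eq (by ring))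

end Pool.Agent.Lib.MP_7f88e4_nt.MP
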