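import Pool.Agent.Lib.MP_7f88e4_nt.MP.Vis
import Pool.Agent.Lib.MP_7f88e4_nt.PS.Final

set_option autoImplicit false

namespace Pool.Agent.Lib.MP_7f88e4_nt.MP

open Finset PS

/-- The dyadic size of `b` relative to `k`. -/
def lv (k b : ℤ) : ℕ := Nat.log 2 (b.natAbs / k.natAbs)

/-- The length of the window that is inspected at the point `b`. -/
def qq (k b : ℤ) : ℕ := lv k b / 1000

/-- The window at `b` has many odd steps. -/
def Rise (β : ℝ) (k b : ℤ) : Prop := β * qq k b < ones (fw k b (qq k b))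

theorem lv_le {k b : ℤ} (h : 1 ≤ lv k b) : k.natAbs * 2 ^ lv k b ≤ b.natAbs := by
  have hb : b.natAbs / k.natAbs ≠ 0 := by
    intro h0
    simp [lv, h0] at h
  exact (Nat.mul_le_mul_left _ (Nat.pow_log_le_self 2 hb)).trans (Nat.mul_div_le _ _)

theorem lt_lv {k : ℤ} (hk : k ≠ 0) (b : ℤ) : b.natAbs < k.natAbs * 2 ^ (lv k b + 1) := by
  have h := Nat.lt_pow_succ_log_self (b := 2) (by norm_num) (b.natAbs / k.natAbs)
  rw [Nat.div_lt_iff_lt_mul (by omega), mul_comm] at h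
  exact h

theorem pow_qq_le {k b : ℤ} (h : 1 ≤ qq k b) : k.natAbs * 2 ^ (1000 * qq k b) ≤ b.natAbs := by
  unfold qq at *
  exact le_trans (Nat.mul_le_mul_left _ (Nat.pow_le_pow_right (by norm_num) (by omega)))
    (lv_le (by omega))

theorem lt_pow_qq {k : ℤ} (hk : k ≠ 0) (b : ℤ) :
    b.natAbs < k.natAbs * 2 ^ (1000 * qq k b + 1000) := by
  refine (lt_lv hk b).trans_le (Nat.mul_le_mul_left _ (Nat.pow_le_pow_right (by norm_num) ?_))
  unfold qq
  omega

theorem ne_of_odd {k : ℤ} (hk : Odd k) : k ≠ 0 := by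
  rintro rfl
  simp at hk

theorem qq_back {k : ℤ} (hk : Odd k) {b : ℤ} {p : ℕ} (hp : p < qq k b) :
    qq k b ≤ 2 * qq k ((T k)^[p] b) + 2 := by
  have hk0 := ne_of_odd hk
  have h1 := back_le hk b p
  have h2 := pow_qq_le (k := k) (b := b) (by omega)
  have h3 := lt_pow_qq hk0 ((T k)^[p] b)
  generalize qq k ((T k)^[p] b) = q at *
  have h5 : k.natAbs * 1 ≤ k.natAbs * 2 ^ (1000 * q + 1000) :=
    Nat.mul_le_mul_left _ (Nat.one_le_two_pow)
  have h6 : k.natAbs * 2 ^ (1000 * qq k b) ≤ k.natAbs * 2 ^ (p + (1000 * q + 1000 + 1)) := by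
    rw [pow_add, pow_succ, mul_left_comm, ← mul_assoc k.natAbs]
    exact (h2.trans (le_self_add.trans h1)).trans (Nat.mul_le_mul_left _ (by omega))
  have h7 := (Nat.pow_le_pow_iff_right (by norm_num)).1
    (Nat.le_of_mul_le_mul_left h6 (by omega))
  omega

theorem ones_bound {k : ℤ} (hk : Odd k) {β : ℝ} (hβ : 0 ≤ β) {n : ℤ} {i : ℕ}
    (hB : ∀ t ≤ i, 1 ≤ qq k ((T k)^[t] n)) (hR : ∀ t < i, ¬ Rise β k ((T k)^[t] n)) (p : ℕ) :
    ∀ t, t + p = i →
      (ones (fw k ((T k)^[t] n) p) : ℝ) ≤ β * p + (2 * qq k ((T k)^[i] n) + 2 : ℕ) := by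
  induction p using Nat.strong_induction_on with
  | _ p ih =>
    intro t ht
    rcases Nat.eq_zero_or_pos p with rfl | hp
    · simp only [fw, ones_nil, Nat.cast_zero, mul_zero, zero_add]
      positivity
    have h1 := hB t (by omega)
    by_cases h : qq k ((T k)^[t] n) ≤ p
    · obtain ⟨d, rfl⟩ := Nat.exists_eq_add_of_le h
      have h2 := ih d (by omega) (qq k ((T k)^[t] n) + t) (by omega)
      have h3 := not_lt.1 (hR t (by omega))
      rw [Function.iterate_add_apply] at h2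
      rw [fw_add, ones_append]
      push_cast at h2 ⊢
      linarith
    · have e : (T k)^[i] n = (T k)^[p] ((T k)^[t] n) := by
        rw [← Function.iterate_add_apply, add_comm, ht]
      have h2 := qq_back hk (not_le.1 h)
      have h3 := ones_le (fw k ((T k)^[t] n) p)
      rw [fw_length] at h3
      have h4 : (ones (fw k ((T k)^[t] n) p) : ℝ) ≤ (2 * qq k ((T k)^[i] n) + 2 : ℕ) := by
        rw [e]
        exact_mod_cast (by omega)
      have : 0 ≤ β * p := by positivity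
      linarith

theorem good_fw {k : ℤ} (hk : Odd k) {β : ℝ} (hβ : 0 ≤ β) (hβ' : β ≤ 5 / 9) {n : ℤ} {i : ℕ}
    (hB : ∀ t ≤ i, 1 ≤ qq k ((T k)^[t] n)) (hR : ∀ t < i, ¬ Rise β k ((T k)^[t] n)) :
    Good (2 * qq k ((T k)^[i] n) + 2) (fw k n i) := by
  intro p hp
  rw [fw_length] at hp
  obtain ⟨t, ht⟩ := Nat.exists_eq_add_of_le' hp
  have h1 := ones_bound hk hβ hB hR p t ht.symm
  have h2 : (fw k n i).take p = fw k ((T k)^[t] n) p := by
    rw [ht, fw_add, List.take_left' (fw_length _ _ _)]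
  have h3 : β * p ≤ 5 / 9 * p := mul_le_mul_of_nonneg_right hβ' (by positivity)
  rw [h2]
  generalize 2 * qq k ((T k)^[i] n) + 2 = H at *
  have : (9 * ones (fw k ((T k)^[t] n) p) : ℝ) ≤ 5 * p + 9 * H := by linarith
  exact_mod_cast this

theorem big_real {k r : ℤ} (h : 1 ≤ qq k r) :
    30 * (|(k : ℝ)| * 3 ^ (2 * qq k r + 2)) ≤ |(r : ℝ)| := by
  have h1 := pow_qq_le h
  generalize qq k r = q at *
  have h4 : |(k : ℝ)| * 2 ^ (1000 * q) ≤ |(r : ℝ)| := by
    rw [← Int.cast_abs, ← Int.cast_abs, ← Int.natCast_natAbs, ← Int.natCast_natAbs]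
    exact_mod_cast h1
  refine le_trans ?_ h4
  rw [mul_left_comm]
  refine mul_le_mul_of_nonneg_left ?_ (abs_nonneg _)
  calc (30 : ℝ) * 3 ^ (2 * q + 2) = 270 ^ 1 * 9 ^ q := by
        rw [pow_add, pow_mul]
        norm_num
        ring
    _ ≤ 270 ^ q * 9 ^ q := by gcongr; norm_num
    _ ≤ _ := by
        rw [← mul_pow, pow_mul]
        refine pow_le_pow_left₀ (by norm_num) ?_ q
        exact le_trans (by norm_num : (270 * 9 : ℝ) ≤ 2 ^ 13)
          (pow_le_pow_right₀ (by norm_num) (by norm_num))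

theorem half_le {k n r : ℤ} {v : List Bool} (h : 1 ≤ qq k r) (hg : Goes k v n r)
    (hv : Good (2 * qq k r + 2) v) : |(r : ℝ)| ≤ 2 * (|(n : ℝ)| * om v) := by
  have h2 := big_real h
  have h3 := hv.sg_le
  have h4 : |(k : ℝ)| * sg v ≤ |(k : ℝ)| * (15 * 3 ^ (2 * qq k r + 2)) :=
    mul_le_mul_of_nonneg_left h3 (abs_nonneg _)
  have h5 : |(r : ℝ)| ≤ |(n : ℝ)| * om v + |(k : ℝ)| * sg v := by
    rw [show (r : ℝ) = n * om v + k * sg v by linarith [hg.real]]
    refine (abs_add_le _ _).trans ?_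
    rw [abs_mul, abs_mul, abs_of_pos (om_pos v), abs_of_nonneg (sg_nonneg v)]
  linarith

/-- A long stretch of large points contains a point with a rising window. -/
theorem exists_first {k : ℤ} (hk : Odd k) {β A : ℝ} (hβ : 0 ≤ β) (hβ' : β ≤ 5 / 9) (hA : 0 < A)
    (hAβ : 1 / A ≤ Real.log 2 - β * Real.log 3) {n : ℤ} (hn : |(k : ℝ)| ≤ |(n : ℝ)|)
    (hB : ∀ t : ℕ, (t : ℝ) ≤ A * Real.log (|(n : ℝ)| / |(k : ℝ)|) → 1 ≤ qq k ((T k)^[t] n)) :
    ∃ i : ℕ, (i : ℝ) ≤ A * Real.log (|(n : ℝ)| / |(k : ℝ)|) ∧ Rise β k ((T k)^[i] n) ∧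
      Good (2 * qq k ((T k)^[i] n) + 2) (fw k n i) := by
  classical
  have hk1 : (0 : ℝ) < |(k : ℝ)| := abs_pos.2 (by exact_mod_cast ne_of_odd hk)
  have hn1 : (1 : ℝ) ≤ |(n : ℝ)| / |(k : ℝ)| := (one_le_div hk1).2 hn
  obtain ⟨u, hu⟩ : ∃ u, |(n : ℝ)| / |(k : ℝ)| = u := ⟨_, rfl⟩
  have hu' : |(n : ℝ)| = |(k : ℝ)| * u := by
    rw [← hu]
    field_simp
  rw [hu] at hB hn1 ⊢
  have hl : 0 ≤ A * Real.log u := mul_nonneg hA.le (Real.log_nonneg hn1)
  have hex : ∃ i : ℕ, (i : ℝ) ≤ A * Real.log u ∧ Rise β k ((T k)^[i] n) := by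
    by_contra hc
    set i := ⌊A * Real.log u⌋₊ with hi
    have hB' : ∀ t ≤ i, 1 ≤ qq k ((T k)^[t] n) := fun t ht => hB t ((Nat.le_floor_iff hl).1 ht)
    have hR : ∀ t < i, ¬ Rise β k ((T k)^[t] n) := fun t ht h =>
      hc ⟨t, (Nat.le_floor_iff hl).1 ht.le, h⟩
    have h1 := half_le (hB' i le_rfl) (goes_fw hk n i) (good_fw hk hβ hβ' hB' hR)
    have h2 := ones_bound hk hβ hB' hR i 0 (zero_add i)
    have h3 := big_real (hB' i le_rfl)
    have h4 : A * Real.log u < i + 1 := Nat.lt_floor_add_one _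
    rw [Function.iterate_zero_apply] at h2
    generalize 2 * qq k ((T k)^[i] n) + 2 = H at *
    have l3 : 0 < Real.log 3 := Real.log_pos (by norm_num)
    have h5 : Real.log u ≤ (i + 1) * (Real.log 2 - β * Real.log 3) := by
      refine le_trans ?_ (mul_le_mul_of_nonneg_left hAβ (by positivity))
      rw [mul_one_div, le_div_iff₀ hA]
      linarith
    have h6 : u * om (fw k n i) ≤ 2 * 3 ^ H := by
      have := om_pos (fw k n i)
      rw [← Real.log_le_log_iff (by positivity) (by positivity),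
        Real.log_mul (by positivity) (by positivity), Real.log_mul (by positivity) (by positivity),
        om, Real.log_div (by positivity) (by positivity), Real.log_pow, Real.log_pow, Real.log_pow,
        fw_length]
      nlinarith [mul_le_mul_of_nonneg_right h2 l3.le, mul_nonneg hβ l3.le]
    have h8 : (0 : ℝ) < |(k : ℝ)| * 3 ^ H := by positivity
    have h9 := mul_le_mul_of_nonneg_left h6 hk1.le
    rw [hu'] at h1
    nlinarith
  obtain ⟨h1, h2⟩ := Nat.find_spec hex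
  refine ⟨Nat.find hex, h1, h2, good_fw hk hβ hβ' (fun t ht => hB t ?_) fun t ht h => ?_⟩
  · exact le_trans (by exact_mod_cast ht) h1
  · exact Nat.find_min hex ht ⟨le_trans (by exact_mod_cast ht.le) h1, h⟩

theorem dvd_of_fw {k : ℤ} (hk : Odd k) {x y : ℤ} {q : ℕ} (h : fw k x q = fw k y q) :
    2 ^ q ∣ x - y := by
  have a1 := goes_fw hk x q
  have a2 := goes_fw hk y q
  unfold Goes at a1 a2
  rw [fw_length, h] at a1
  rw [fw_length] at a2
  exact (cop2 (ones (fw k y q)) q).symm.dvd_of_dvd_mul_left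
    ⟨(T k)^[q] x - (T k)^[q] y, by linear_combination a2 - a1⟩

/-- The two-adic pattern and the three-adic weight are independent. -/
theorem shell {k : ℤ} (hk : Odd k) {δ : ℝ} (hδ : 0 ≤ δ) (R : Finset ℤ) {e p : ℕ}
    (he : 1 ≤ e / 1000) (hp : p ≤ 200 * (e / 1000) + 300)
    (hR : ∀ r ∈ R, lv k r = e ∧ Rise (1 / 2 + δ) k r) :
    ∑ r ∈ R, F k p r
      ≤ 8 * (|(k : ℝ)| * 2 ^ e) * Real.exp (-(2 * δ ^ 2) * (e / 1000 : ℕ)) := by
  classical
  have hk1 : (1 : ℝ) ≤ |(k : ℝ)| := by exact_mod_cast Int.one_le_abs (ne_of_odd hk)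
  set q := e / 1000 with hq
  obtain ⟨Z, hZ⟩ : ∃ Z, |(k : ℝ)| * 2 ^ e = Z := ⟨_, rfl⟩
  have hZ1 : (2 : ℝ) ^ e ≤ Z := by
    rw [← hZ]
    exact le_mul_of_one_le_left (by positivity) hk1
  have hZ0 : 0 < Z := lt_of_lt_of_le (by positivity) hZ1
  have haZ : ∀ x ∈ R, |(x : ℝ)| ≤ 2 * Z := fun x hx => by
    have := (lt_lv (ne_of_odd hk) x).le
    rw [(hR x hx).1, pow_succ] at this
    rw [← hZ, ← Int.cast_abs, ← Int.cast_abs, ← Int.natCast_natAbs, ← Int.natCast_natAbs,
      mul_comm 2, mul_assoc]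
    exact_mod_cast this
  rw [hZ]
  have h1 : ∀ v ∈ W p, ∑ r ∈ R, wt k v r
      ≤ 8 * Z * Real.exp (-(2 * δ ^ 2) * q) / 2 ^ p := by
    intro v hv
    rw [mem_W] at hv
    have hj := ones_le v
    have h2 : ∀ w ∈ (W q).filter fun w => (1 / 2 + δ) * q < ones w,
        (((R.filter fun r => Valid k v r).filter fun r => fw k r q = w).card : ℝ)
          ≤ 8 * Z / (3 ^ ones v * 2 ^ q) := by
      intro w _
      refine (card_cong _ (M := 3 ^ ones v * 2 ^ q) (by positivity) (l := 4 * Z)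
        (by positivity) ?_ ?_).trans ?_
      · intro x hx y hy
        simp only [mem_filter] at hx hy
        exact (cop2 _ _).mul_dvd (hx.1.2.sub hy.1.2) (dvd_of_fw hk (hx.2.trans hy.2.symm))
      · intro x hx y hy
        simp only [mem_filter] at hx hy
        linarith [abs_le.1 (haZ x hx.1.1), abs_le.1 (haZ y hy.1.1)]
      · have a : (3 : ℝ) ^ ones v * 2 ^ q ≤ 4 * 2 ^ e :=
          calc (3 : ℝ) ^ ones v * 2 ^ q ≤ (2 ^ 2) ^ ones v * 2 ^ q := by gcongr; norm_num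
            _ ≤ 2 ^ (2 + e) := by
              rw [← pow_mul, ← pow_add]
              exact pow_le_pow_right₀ (by norm_num) (by omega)
            _ = _ := by rw [pow_add]; norm_num
        push_cast
        rw [div_add_one (by positivity)]
        exact div_le_div_of_nonneg_right (by linarith) (by positivity)
    have h3 : ((R.filter fun r => Valid k v r).card : ℝ)
        ≤ 2 ^ q * Real.exp (-(2 * δ ^ 2) * q) * (8 * Z / (3 ^ ones v * 2 ^ q)) := by
      rw [card_eq_sum_card_fiberwise (f := fun r => fw k r q)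
        (t := (W q).filter fun w => (1 / 2 + δ) * q < ones w), Nat.cast_sum]
      · refine (sum_le_card_nsmul _ _ _ h2).trans ?_
        rw [nsmul_eq_mul]
        exact mul_le_mul_of_nonneg_right (rise_words hδ q) (by positivity)
      · intro r hr
        obtain ⟨a1, a2⟩ := hR r (mem_filter.1 hr).1
        rw [Rise, qq, a1] at a2
        exact mem_filter.2 ⟨mem_W.2 (fw_length _ _ _), a2⟩
    unfold wt
    rw [← sum_filter, sum_const, nsmul_eq_mul]
    refine (mul_le_mul_of_nonneg_right h3 (om_pos v).le).trans (le_of_eq ?_)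
    rw [om, hv]
    field_simp
  unfold F
  rw [sum_comm]
  refine (sum_le_card_nsmul _ _ _ h1).trans ?_
  rw [nsmul_eq_mul, card_W, mul_div_cancel₀ _ (by positivity)]

end Pool.Agent.Lib.MP_7f88e4_nt.MP
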