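import Pool.Agent.Lib.MP_7f88e4_nt.MP.Exit
import Pool.Agent.Lib.MP_7f88e4_nt.MP.Defs

set_option autoImplicit false

namespace Pool.Agent.Lib.MP_7f88e4_nt.MP

open Finset Filter

/-- For moduli with short periods all but a small power of the orbits are trapped. -/
theorem most : ∃ c : ℝ, 0 < c ∧ ∃ K : ℝ, ∀ k : ℤ, (k % 6 = 1 ∨ k % 6 = 5) → ShortPeriod c k →
    K ≤ |(k : ℝ)| → ∀ X : ℝ, |(k : ℝ)| ≤ X →
      (Set.ncard {n : ℤ | |(n : ℝ)| ≤ X ∧ ¬ ∃ m p : ℕ, 1 ≤ p ∧ (T k)^[m + p] n = (T k)^[m] n ∧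
        |(T k)^[m] n| ≤ k ^ 2} : ℝ) ≤ |(k : ℝ)| ^ (-c) * X := by
  obtain ⟨c, hc, C, hC, h⟩ := trap_count
  obtain ⟨K, hK⟩ := eventually_atTop.1
    ((tendsto_rpow_atTop (y := c / 4) (by positivity)).eventually_ge_atTop C)
  refine ⟨c / 4, by positivity, K, fun k hk ⟨l, hl1, hl2, h2, h3⟩ hkK X hX => ?_⟩
  have hk1 : (1 : ℝ) ≤ |(k : ℝ)| := by exact_mod_cast Int.one_le_abs (by omega)
  have hk0 : (0 : ℝ) < |(k : ℝ)| := by linarith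
  have hf : {n : ℤ | |(n : ℝ)| ≤ X ∧ ¬ ∃ m p : ℕ, 1 ≤ p ∧ (T k)^[m + p] n = (T k)^[m] n ∧
      |(T k)^[m] n| ≤ k ^ 2}.Finite := by
    refine (Set.finite_Icc (-⌊X⌋) ⌊X⌋).subset fun n hn => ?_
    have h1 : |n| ≤ ⌊X⌋ := Int.le_floor.2 (by exact_mod_cast hn.1)
    exact abs_le.1 h1
  rw [Set.ncard_eq_toFinset_card _ hf]
  refine (h k l X _ (Int.odd_iff.2 (by omega)) (by omega) hl1 h2 h3 hX fun n hn => ?_).trans ?_
  · obtain ⟨a1, a2⟩ := hf.mem_toFinset.1 hn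
    refine ⟨a1, fun ⟨m, p, b1, b2, b3⟩ => a2 ⟨m, p, b1, b2, ?_⟩⟩
    have b4 : |(k : ℝ)| ^ (1 / 100 : ℝ) ≤ |(k : ℝ)| :=
      (Real.rpow_le_rpow_of_exponent_le hk1 (by norm_num)).trans_eq (Real.rpow_one _)
    have b5 := b3.trans (mul_le_mul_of_nonneg_right b4 hk0.le)
    rw [abs_mul_abs_self, ← sq] at b5
    exact_mod_cast b5
  · have b1 := hK _ hkK
    have e : |(k : ℝ)| ^ (c / 4) * (|(k : ℝ)| ^ (c / 4)) ^ 2 * X * |(k : ℝ)| ^ (-c)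
        = |(k : ℝ)| ^ (-(c / 4)) * X := by
      rw [sq, ← Real.rpow_add hk0, ← Real.rpow_add hk0, mul_right_comm, ← Real.rpow_add hk0]
      congr 2
      ring
    rw [← e]
    have : 0 ≤ X := by linarith
    gcongr

end Pool.Agent.Lib.MP_7f88e4_nt.MP
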