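import Pool.Agent.Lib.MP_7f88e4_nt.MP.Mod
import Pool.Agent.Lib.MP_7f88e4_nt.MP.Defs

set_option autoImplicit false

namespace Pool.Agent.Lib.MP_7f88e4_nt.MP

open Finset Filter Topology

/-- Moduli for which the powers of two and three have a short period. -/
theorem exists_mod_size {ε : ℝ} (hε : 0 < ε) : ∀ᶠ t : ℝ in atTop, ∃ k l : ℕ,
    t / 8 ≤ Real.log k ∧ Real.log k ≤ t ∧ k % 6 = 1 ∧ 1 ≤ l ∧
    (k : ℤ) ∣ 2 ^ l - 1 ∧ (k : ℤ) ∣ 3 ^ l - 1 ∧ (l : ℝ) ≤ (k : ℝ) ^ ε := by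
  obtain ⟨D, hD, h6, hφ⟩ := exists_small_totient (24 / ε)
  have : NeZero D := ⟨hD.ne'⟩
  have hD' : (0 : ℝ) < D := by exact_mod_cast hD
  have hφ0 : (0 : ℝ) < D.totient := by exact_mod_cast Nat.totient_pos.2 hD
  have hφ1 : (D.totient : ℝ) ≤ D := by exact_mod_cast Nat.totient_le D
  have h1 := (Pool.Agent.Shared.PNTAP.theta_ap (q := D) (a := 1) isUnit_one).comp
    tendsto_natCast_atTop_atTop
  have h2 := h1.eventually (lt_mem_nhds (half_lt_self (inv_pos.2 hφ0)))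
  have h3 := h1.eventually (gt_mem_nhds (lt_two_mul_self (inv_pos.2 hφ0)))
  have ht : Tendsto (fun t : ℝ => ⌊(D.totient : ℝ) / 2 * t⌋₊) atTop atTop :=
    tendsto_nat_floor_atTop.comp (tendsto_id.const_mul_atTop (by positivity))
  filter_upwards [ht.eventually (h2.and (h3.and (eventually_ge_atTop (D * D + 1)))),
    eventually_ge_atTop 0] with t ⟨hy1, hy1', hy2⟩ ht0
  have hy4 := Nat.floor_le (by positivity : 0 ≤ (D.totient : ℝ) / 2 * t)
  have hy5 := Nat.lt_floor_add_one ((D.totient : ℝ) / 2 * t)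
  generalize ⌊(D.totient : ℝ) / 2 * t⌋₊ = y at *
  have hy3 : (D : ℝ) * D + 1 ≤ y := by exact_mod_cast hy2
  have hy0 : (0 : ℝ) < y := lt_of_lt_of_le (by positivity) hy3
  simp only [Function.comp, Pool.Agent.Shared.PNTAP.thetaAP, Nat.floor_natCast] at hy1 hy1'
  set S := (Icc 1 y).filter fun p : ℕ => p.Prime ∧ (p : ZMod D) = 1 with hS
  have hp : ∀ p ∈ S, p.Prime := fun p hp => (mem_filter.1 hp).2.1
  have hm : ∀ p ∈ S, D ∣ p - 1 := fun p h => by
    have a1 := (mem_filter.1 h).2.2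
    rw [← Nat.cast_one, ZMod.natCast_eq_natCast_iff] at a1
    exact (Nat.modEq_iff_dvd' (hp p h).one_le).1 a1.symm
  have hm6 : ∀ p ∈ S, p % 6 = 1 := fun p h => by
    have a1 := h6.trans (hm p h)
    have a2 := (hp p h).one_le
    omega
  have h0 : (0 : ℝ) < (∏ p ∈ S, p : ℕ) := by
    exact_mod_cast prod_pos fun p h => (hp p h).pos
  have hlog : (D.totient : ℝ)⁻¹ / 2 * y ≤ Real.log (∏ p ∈ S, p : ℕ) := by
    rw [Nat.cast_prod, Real.log_prod fun p h => by exact_mod_cast (hp p h).ne_zero]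
    exact ((lt_div_iff₀ hy0).1 hy1).le
  have hlog' : Real.log (∏ p ∈ S, p : ℕ) ≤ 2 * (D.totient : ℝ)⁻¹ * y := by
    rw [Nat.cast_prod, Real.log_prod fun p h => by exact_mod_cast (hp p h).ne_zero]
    exact ((div_lt_iff₀ hy0).1 hy1').le
  have hl0 := Nat.lcmUpto_pos (y / D)
  have hdvd : ∀ x : ℤ, (∀ p ∈ S, ¬ (p : ℤ) ∣ x) →
      ((∏ p ∈ S, p : ℕ) : ℤ) ∣ x ^ (D * Nat.lcmUpto (y / D)) - 1 := fun x hx => by
    rw [Int.natCast_dvd]
    refine prod_primes_dvd _ (fun p h => (hp p h).prime) fun p h => ?_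
    rw [← Int.natCast_dvd]
    obtain ⟨m, hm'⟩ := hm p h
    have a1 := (hp p h).one_lt
    have a2 := (mem_Icc.1 (mem_filter.1 h).1).2
    have a3 : m ∣ Nat.lcmUpto (y / D) := by
      refine dvd_lcm (f := id) (mem_Icc.2 ⟨?_, ?_⟩)
      · rcases Nat.eq_zero_or_pos m with rfl | h
        · omega
        · exact h
      · rw [Nat.le_div_iff_mul_le hD, mul_comm]
        omega
    obtain ⟨c, hc⟩ := a3
    have a4 := (Int.ModEq.pow_card_sub_one_eq_one (hp p h) (n := x)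
      ((Nat.prime_iff_prime_int.1 (hp p h)).coprime_iff_not_dvd.2 (hx p h)).symm).pow c
    rw [← pow_mul, one_pow, hm', mul_assoc, ← hc] at a4
    exact a4.symm.dvd
  refine ⟨∏ p ∈ S, p, D * Nat.lcmUpto (y / D), ?_, ?_, ?_, Nat.mul_pos hD hl0, hdvd 2 ?_,
    hdvd 3 ?_, ?_⟩
  · refine le_trans ?_ hlog
    rw [inv_eq_one_div, div_div, div_mul_eq_mul_div, le_div_iff₀ (by positivity)]
    nlinarith [mul_pos hD' hD']
  · refine hlog'.trans ?_
    rw [mul_assoc, inv_mul_eq_div, ← mul_div_assoc, div_le_iff₀ hφ0]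
    linarith
  · refine prod_induction _ (fun n => n % 6 = 1) (fun a b ha hb => ?_) rfl hm6
    rw [Nat.mul_mod, ha, hb]
  · intro p h hd
    have a1 := hm6 p h
    have a2 := (hp p h).one_lt
    have a3 := Int.le_of_dvd (by norm_num) hd
    omega
  · intro p h hd
    have a1 := hm6 p h
    have a2 := (hp p h).one_lt
    have a3 := Int.le_of_dvd (by norm_num) hd
    omega
  · rw [Real.le_rpow_iff_log_le (by exact_mod_cast Nat.mul_pos hD hl0) h0, Nat.cast_mul,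
      Real.log_mul hD'.ne' (by exact_mod_cast hl0.ne'), ← Chebyshev.psi_eq_log_lcmUpto]
    have a1 := Chebyshev.psi_le_const_mul_self (x := (y / D : ℕ)) (by positivity)
    have a2 : Real.log 4 ≤ 2 := by
      rw [show (4 : ℝ) = 2 ^ 2 by norm_num, Real.log_pow]
      push_cast
      linarith [Real.log_two_lt_d9]
    have a3 : ((y / D : ℕ) : ℝ) ≤ y / D := Nat.cast_div_le
    have a4 : (D : ℝ) ≤ y / D := by
      rw [le_div_iff₀ hD']
      linarith
    have a5 := Real.log_le_self hD'.le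
    have a6 : 12 * (y / D : ℝ) ≤ ε * ((D.totient : ℝ)⁻¹ / 2 * y) := by
      rw [div_mul_eq_mul_div, div_le_iff₀ hε] at hφ
      rw [show ε * ((D.totient : ℝ)⁻¹ / 2 * y) = ε * y / (2 * D.totient) by field_simp,
        ← mul_div_assoc, div_le_div_iff₀ hD' (by positivity)]
      nlinarith [mul_le_mul_of_nonneg_left hφ hy0.le]
    have a7 := mul_le_mul_of_nonneg_left hlog hε.le
    have a8 : (0 : ℝ) ≤ (y / D : ℕ) := by positivity
    nlinarith

theorem dvd_mul_period {k x : ℤ} {l m : ℕ} (h : k ∣ x ^ l - 1) (hx : IsCoprime x m) :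
    k * m ∣ x ^ (l * m.totient * m) - 1 := by
  have h1 : k ∣ x ^ (l * m.totient) - 1 := by
    rw [pow_mul]
    exact h.trans (sub_one_dvd_pow_sub_one _ _)
  have h2 : x ^ (l * m.totient) ≡ 1 [ZMOD m] := by
    have a1 : x ^ m.totient ≡ 1 [ZMOD m] := by
      rw [← ZMod.intCast_eq_intCast_iff]
      obtain ⟨u, hu⟩ := (ZMod.coe_int_isUnit_iff_isCoprime x m).2 hx.symm
      push_cast
      rw [← hu, ← Units.val_pow_eq_pow_val, ZMod.pow_totient, Units.val_one]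
    have a2 := a1.pow l
    rwa [one_pow, ← pow_mul, mul_comm] at a2
  rw [pow_mul, ← mul_geom_sum]
  refine mul_dvd_mul h1 ?_
  have h3 : ∑ i ∈ range m, (x ^ (l * m.totient)) ^ i ≡ ∑ _i ∈ range m, 1 [ZMOD m] :=
    Int.ModEq.sum fun i _ => by simpa using h2.pow i
  rw [sum_const, card_range, nsmul_eq_mul, mul_one] at h3
  exact Int.modEq_zero_iff_dvd.1 (h3.trans (Int.modEq_zero_iff_dvd.2 dvd_rfl))

/-- There are many moduli with short periods. -/
theorem many {c : ℝ} (hc : 0 < c) (K1 : ℝ) : ∃ η : ℝ, 0 < η ∧ ∃ K0 : ℝ, ∀ K : ℝ, K0 ≤ K →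
    K ^ η ≤ (Set.ncard {k : ℤ | 0 < k ∧ (k : ℝ) ≤ K ∧ k % 6 = 1 ∧ K1 ≤ k ∧
      ShortPeriod c k} : ℝ) := by
  obtain ⟨e, he0, he1, hec⟩ : ∃ e : ℝ, 0 < e ∧ e ≤ 1 ∧ 3 * e ≤ c :=
    ⟨min 1 (c / 3), by positivity, min_le_left _ _, by linarith [min_le_right 1 (c / 3)]⟩
  have ht : Tendsto (fun K : ℝ => Real.log K / 2) atTop atTop :=
    Real.tendsto_log_atTop.atTop_div_const (by norm_num)
  obtain ⟨K0, hK0⟩ := eventually_atTop.1 ((ht.eventually (exists_mod_size he0)).and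
    (((tendsto_rpow_atTop (y := e / 32) (by positivity)).eventually_ge_atTop (max 12 K1)).and
      (eventually_gt_atTop 0)))
  refine ⟨e / 32, by positivity, K0, fun K hK => ?_⟩
  obtain ⟨⟨k, l, h1, h2, h3, h4, h5, h6, h7⟩, h9, hK0'⟩ := hK0 K hK
  obtain ⟨h8, h10⟩ := max_le_iff.1 h9
  have hk1 : (1 : ℝ) ≤ k := by exact_mod_cast (by omega : 1 ≤ k)
  have hk0 : (0 : ℝ) < k := by linarith
  have a1 : K ^ (e / 32) * K ^ (e / 32) ≤ (k : ℝ) ^ e := by
    rw [← Real.rpow_add hK0', Real.rpow_def_of_pos hK0', Real.rpow_def_of_pos hk0]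
    refine Real.exp_le_exp.2 ?_
    nlinarith [mul_le_mul_of_nonneg_right h1 he0.le]
  have a2 : (k : ℝ) * k ≤ K := by
    rw [← Real.log_le_log_iff (by positivity) hK0', Real.log_mul hk0.ne' hk0.ne']
    linarith
  have a3 : (k : ℝ) ^ e ≤ k :=
    (Real.rpow_le_rpow_of_exponent_le hk1 he1).trans_eq (Real.rpow_one _)
  have a4 : (k : ℝ) ^ e * (k : ℝ) ^ e * (k : ℝ) ^ e ≤ (k : ℝ) ^ c := by
    rw [← Real.rpow_add hk0, ← Real.rpow_add hk0]
    exact Real.rpow_le_rpow_of_exponent_le hk1 (by linarith)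
  have hf : {k : ℤ | 0 < k ∧ (k : ℝ) ≤ K ∧ k % 6 = 1 ∧ K1 ≤ k ∧ ShortPeriod c k}.Finite :=
    (Set.finite_Icc 0 ⌊K⌋).subset fun n hn => ⟨hn.1.le, Int.le_floor.2 hn.2.1⟩
  have hu0 : 0 < K ^ (e / 32) := by positivity
  generalize K ^ (e / 32) = u at *
  have a5 := Nat.ceil_lt_add_one hu0.le
  refine (Nat.le_ceil u).trans (Nat.cast_le.2 ?_)
  rw [← card_range ⌈u⌉₊, ← Set.ncard_coe_finset]
  refine Set.ncard_le_ncard_of_injOn (fun j : ℕ => (k : ℤ) * ((6 * j + 1 : ℕ) : ℤ)) ?_ ?_ hf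
  · intro j hj
    have b1 : ((j + 1 : ℕ) : ℝ) ≤ ⌈u⌉₊ := Nat.cast_le.2 (mem_range.1 hj)
    have b2 : ((6 * j + 1 : ℕ) : ℝ) ≤ (k : ℝ) ^ e := by
      push_cast at b1 ⊢
      nlinarith
    have b3 : (((6 * j + 1).totient : ℕ) : ℝ) ≤ (k : ℝ) ^ e :=
      (Nat.cast_le.2 (Nat.totient_le _)).trans b2
    have b4 : (1 : ℝ) ≤ ((6 * j + 1 : ℕ) : ℝ) := by exact_mod_cast (by omega : 1 ≤ 6 * j + 1)
    refine ⟨mul_pos (by omega) (by omega), ?_, ?_, ?_, l * (6 * j + 1).totient * (6 * j + 1),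
      Nat.mul_pos (Nat.mul_pos h4 (Nat.totient_pos.2 (by omega))) (by omega), ?_,
      dvd_mul_period h5 ⟨-3 * j, 1, by push_cast; ring⟩,
      dvd_mul_period h6 ⟨-2 * j, 1, by push_cast; ring⟩⟩
    · rw [Int.cast_mul, Int.cast_natCast, Int.cast_natCast]
      exact (mul_le_mul_of_nonneg_left (b2.trans a3) hk0.le).trans a2
    · rw [Int.mul_emod, show (k : ℤ) % 6 = 1 by omega,
        show ((6 * j + 1 : ℕ) : ℤ) % 6 = 1 by omega]
      rfl
    · rw [Int.cast_mul, Int.cast_natCast, Int.cast_natCast]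
      refine le_trans ?_ (le_mul_of_one_le_right hk0.le b4)
      nlinarith
    · rw [Int.cast_mul, Int.cast_natCast, Int.cast_natCast, abs_of_pos (by positivity),
        Nat.cast_mul, Nat.cast_mul]
      refine le_trans ?_ (a4.trans (Real.rpow_le_rpow hk0.le
        (le_mul_of_one_le_right hk0.le b4) hc.le))
      gcongr
  · intro i _ j _ hij
    have := mul_left_cancel₀ (by omega : (k : ℤ) ≠ 0) hij
    omega

end Pool.Agent.Lib.MP_7f88e4_nt.MP
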