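import Pool.Agent.Shared.PNTAP
import Pool.Agent.Shared.BrunSieve

set_option autoImplicit false

namespace Pool.Agent.Lib.MP_7f88e4_nt.MP

open Finset Filter Topology

theorem exists_small_totient (R : ℝ) : ∃ D : ℕ, 0 < D ∧ 6 ∣ D ∧ R * D.totient ≤ D := by
  obtain ⟨z, hz⟩ := exists_nat_ge (max 3 (Real.exp R))
  have hz3 : 3 ≤ z := by exact_mod_cast (le_max_left _ _).trans hz
  set S := (range (z + 1)).filter Nat.Prime with hS
  have hp : ∀ p ∈ S, p.Prime := fun p hp => (mem_filter.1 hp).2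
  have h0 : 0 < ∏ p ∈ S, p := prod_pos fun p h => (hp p h).pos
  refine ⟨∏ p ∈ S, p, h0, ?_, ?_⟩
  · refine Nat.Coprime.mul_dvd_of_dvd_of_dvd (by norm_num : Nat.Coprime 2 3)
      (dvd_prod_of_mem (fun p => p) ?_) (dvd_prod_of_mem (fun p => p) ?_)
    · exact mem_filter.2 ⟨mem_range.2 (by omega), Nat.prime_two⟩
    · exact mem_filter.2 ⟨mem_range.2 (by omega), Nat.prime_three⟩
  · have h1 := Nat.totient_eq_mul_prod_factors (∏ p ∈ S, p)
    rw [Nat.primeFactors_prod hp] at h1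
    have h2 : ((∏ p ∈ S, p).totient : ℝ) = (∏ p ∈ S, p : ℕ) * ∏ p ∈ S, (1 - (p : ℝ)⁻¹) := by
      have := congrArg (fun x : ℚ => (x : ℝ)) h1
      push_cast at this ⊢
      exact this
    have h3 := Pool.Agent.Shared.BrunSieve.log_le_prod_inv z
    rw [← hS, prod_inv_distrib] at h3
    have h4 : 0 < ∏ p ∈ S, (1 - (p : ℝ)⁻¹) := prod_pos fun p h =>
      sub_pos.2 (inv_lt_one_of_one_lt₀ (by exact_mod_cast (hp p h).one_lt))
    have h5 : R ≤ Real.log (z + 1) := by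
      rw [Real.le_log_iff_exp_le (by positivity)]
      linarith [(le_max_right _ _).trans hz]
    have h6 := mul_le_mul_of_nonneg_right (h5.trans h3) h4.le
    rw [inv_mul_cancel₀ h4.ne'] at h6
    rw [h2, mul_left_comm]
    exact mul_le_of_le_one_right (by positivity) h6

/-- Moduli for which the powers of two and three have a short period. -/
theorem exists_mod {ε : ℝ} (hε : 0 < ε) (K : ℕ) : ∃ k l : ℕ, K ≤ k ∧ k % 6 = 1 ∧ 1 ≤ l ∧
    (k : ℤ) ∣ 2 ^ l - 1 ∧ (k : ℤ) ∣ 3 ^ l - 1 ∧ (l : ℝ) ≤ (k : ℝ) ^ ε := by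
  obtain ⟨D, hD, h6, hφ⟩ := exists_small_totient (24 / ε)
  have : NeZero D := ⟨hD.ne'⟩
  have hD' : (0 : ℝ) < D := by exact_mod_cast hD
  have hφ0 : (0 : ℝ) < D.totient := by exact_mod_cast Nat.totient_pos.2 hD
  have hφ1 : (D.totient : ℝ) ≤ D := by exact_mod_cast Nat.totient_le D
  have h1 := (Pool.Agent.Shared.PNTAP.theta_ap (q := D) (a := 1) isUnit_one).comp
    tendsto_natCast_atTop_atTop
  have h2 := h1.eventually (lt_mem_nhds (half_lt_self (inv_pos.2 hφ0)))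
  obtain ⟨y, hy1, hy2⟩ := (h2.and (eventually_ge_atTop (D * D + 2 * D * K + 1))).exists
  have hy3 : (D : ℝ) * D + 2 * D * K + 1 ≤ y := by exact_mod_cast hy2
  have hy0 : (0 : ℝ) < y := lt_of_lt_of_le (by positivity) hy3
  simp only [Function.comp, Pool.Agent.Shared.PNTAP.thetaAP, Nat.floor_natCast] at hy1
  set S := (Icc 1 y).filter fun p : ℕ => p.Prime ∧ (p : ZMod D) = 1 with hS
  have hp : ∀ p ∈ S, p.Prime := fun p hp => (mem_filter.1 hp).2.1
  have hm : ∀ p ∈ S, D ∣ p - 1 := fun p h => by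
    have a1 := (mem_filter.1 h).2.2
    rw [← Nat.cast_one, ZMod.natCast_eq_natCast_iff] at a1
    exact (Nat.modEq_iff_dvd' (hp p h).one_le).1 a1.symm
  have hm6 : ∀ p ∈ S, p % 6 = 1 := fun p h => by
    have a1 := h6.trans (hm p h)
    have a2 := (hp p h).one_le
    omega
  have h0 : (0 : ℝ) < (∏ p ∈ S, p : ℕ) := by
    exact_mod_cast prod_pos fun p h => (hp p h).pos
  have hlog : (D.totient : ℝ)⁻¹ / 2 * y ≤ Real.log (∏ p ∈ S, p : ℕ) := by
    rw [Nat.cast_prod, Real.log_prod fun p h => by exact_mod_cast (hp p h).ne_zero]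
    exact ((lt_div_iff₀ hy0).1 hy1).le
  have hl0 := Nat.lcmUpto_pos (y / D)
  have hdvd : ∀ x : ℤ, (∀ p ∈ S, ¬ (p : ℤ) ∣ x) →
      ((∏ p ∈ S, p : ℕ) : ℤ) ∣ x ^ (D * Nat.lcmUpto (y / D)) - 1 := fun x hx => by
    rw [Int.natCast_dvd]
    refine prod_primes_dvd _ (fun p h => (hp p h).prime) fun p h => ?_
    rw [← Int.natCast_dvd]
    obtain ⟨m, hm'⟩ := hm p h
    have a1 := (hp p h).one_lt
    have a2 := (mem_Icc.1 (mem_filter.1 h).1).2
    have a3 : m ∣ Nat.lcmUpto (y / D) := by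
      refine dvd_lcm (f := id) (mem_Icc.2 ⟨?_, ?_⟩)
      · rcases Nat.eq_zero_or_pos m with rfl | h
        · omega
        · exact h
      · rw [Nat.le_div_iff_mul_le hD, mul_comm]
        omega
    obtain ⟨c, hc⟩ := a3
    have a4 := (Int.ModEq.pow_card_sub_one_eq_one (hp p h) (n := x)
      ((Nat.prime_iff_prime_int.1 (hp p h)).coprime_iff_not_dvd.2 (hx p h)).symm).pow c
    rw [← pow_mul, one_pow, hm', mul_assoc, ← hc] at a4
    exact a4.symm.dvd
  refine ⟨∏ p ∈ S, p, D * Nat.lcmUpto (y / D), ?_, ?_, Nat.mul_pos hD hl0, hdvd 2 ?_, hdvd 3 ?_,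
    ?_⟩
  · have a1 : (K : ℝ) ≤ (D.totient : ℝ)⁻¹ / 2 * y := by
      rw [inv_eq_one_div, div_div, div_mul_eq_mul_div, le_div_iff₀ (by positivity)]
      nlinarith [mul_le_mul_of_nonneg_left hφ1 (by positivity : (0 : ℝ) ≤ K)]
    have a2 := Real.log_le_self h0.le
    exact_mod_cast a1.trans (hlog.trans a2)
  · refine prod_induction _ (fun n => n % 6 = 1) (fun a b ha hb => ?_) rfl hm6
    rw [Nat.mul_mod, ha, hb]
  · intro p h hd
    have a1 := hm6 p h
    have a2 := (hp p h).one_lt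
    have a3 := Int.le_of_dvd (by norm_num) hd
    omega
  · intro p h hd
    have a1 := hm6 p h
    have a2 := (hp p h).one_lt
    have a3 := Int.le_of_dvd (by norm_num) hd
    omega
  · rw [Real.le_rpow_iff_log_le (by exact_mod_cast Nat.mul_pos hD hl0) h0, Nat.cast_mul,
      Real.log_mul hD'.ne' (by exact_mod_cast hl0.ne'), ← Chebyshev.psi_eq_log_lcmUpto]
    have a1 := Chebyshev.psi_le_const_mul_self (x := (y / D : ℕ)) (by positivity)
    have a2 : Real.log 4 ≤ 2 := by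
      rw [show (4 : ℝ) = 2 ^ 2 by norm_num, Real.log_pow]
      push_cast
      linarith [Real.log_two_lt_d9]
    have a3 : ((y / D : ℕ) : ℝ) ≤ y / D := Nat.cast_div_le
    have a4 : (D : ℝ) ≤ y / D := by
      rw [le_div_iff₀ hD']
      nlinarith [mul_nonneg hD'.le (by positivity : (0 : ℝ) ≤ K)]
    have a5 := Real.log_le_self hD'.le
    have a6 : 12 * (y / D : ℝ) ≤ ε * ((D.totient : ℝ)⁻¹ / 2 * y) := by
      rw [div_mul_eq_mul_div, div_le_iff₀ hε] at hφ
      rw [show ε * ((D.totient : ℝ)⁻¹ / 2 * y) = ε * y / (2 * D.totient) by field_simp,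
        ← mul_div_assoc, div_le_div_iff₀ hD' (by positivity)]
      nlinarith [mul_le_mul_of_nonneg_left hφ hy0.le]
    have a7 := mul_le_mul_of_nonneg_left hlog hε.le
    have a8 : (0 : ℝ) ≤ (y / D : ℕ) := by positivity
    nlinarith

end Pool.Agent.Lib.MP_7f88e4_nt.MP
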