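import Pool.Agent.Lib.MP_7f88e4_nt.PS.Visit

set_option autoImplicit false

namespace Pool.Agent.Lib.MP_7f88e4_nt.MP

open Finset PS

/-- The backward images of one type fill a short interval. -/
theorem interval {k r : ℤ} (hk : Odd k) (hk3 : ¬ 3 ∣ k) {φ : ℤ → ℝ} (h0 : ∀ x, 0 ≤ φ x) {M : ℕ} (hM : 0 < M)
    (hMk : IsCoprime (M : ℤ) k)
    (hper : ∀ x y, (M : ℤ) ∣ x - y → φ x = φ y) {ε : ℝ} (hε : ∑ x ∈ range M, φ x ≤ M * ε)
    (B : Finset (List Bool)) {s a : ℕ} {K w : ℝ} (hK : 0 ≤ K) (hw : 0 < w) (hwM : w * M ≤ 1)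
    (hB : ∀ v ∈ B, v.length = s ∧ om v = w ∧ Valid k v r ∧ sg v ≤ K) (hB1 : ∀ v ∈ B, ones v = a) :
    ∑ v ∈ B, om v * φ (pre k v r) ≤ (K + 1) * ε := by
  have hk0 : k ≠ 0 := by
    rintro rfl
    exact hk3 (dvd_zero 3)
  have hk1 : (0 : ℝ) < |(k : ℝ)| := abs_pos.2 (by exact_mod_cast hk0)
  have hM' : (0 : ℤ) < M := by exact_mod_cast hM
  have hM'' : (0 : ℝ) < M := by exact_mod_cast hM
  have hε0 : 0 ≤ ε := nonneg_of_mul_nonneg_right ((sum_nonneg fun x _ => h0 _).trans hε) hM''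
  have hinj : Set.InjOn (fun v => pre k v r) B := by
    intro v hv v' hv' h
    obtain ⟨a1, -, a2, -⟩ := hB v hv
    obtain ⟨b1, -, b2, -⟩ := hB v' hv'
    have h' : pre k v r = pre k v' r := h
    exact goes_inj hk (by omega) a2.goes (h' ▸ b2.goes)
  rw [sum_congr rfl fun v hv => by rw [(hB v hv).2.1], ← mul_sum, ← sum_image (f := φ) hinj]
  set A := B.image fun v => pre k v r with hA
  have h1 : ∀ x ∈ A, ∀ y ∈ A, (x : ℝ) - y ≤ |(k : ℝ)| * K / w := by
    simp only [hA, mem_image]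
    rintro _ ⟨v, hv, rfl⟩ _ ⟨v', hv', rfl⟩
    obtain ⟨-, a1, a2, a3⟩ := hB v hv
    obtain ⟨-, b1, b2, b3⟩ := hB v' hv'
    have a4 := a2.goes.real
    have b4 := b2.goes.real
    rw [a1] at a4
    rw [b1] at b4
    rw [le_div_iff₀ hw, sub_mul, a4, b4]
    have h2 : |sg v' - sg v| ≤ K := by
      rw [abs_le]
      constructor <;> linarith [sg_nonneg v, sg_nonneg v']
    calc (r : ℝ) - k * sg v - (r - k * sg v') = k * (sg v' - sg v) := by ring
      _ ≤ |(k : ℝ)| * |sg v' - sg v| := by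
        rw [← abs_mul]
        exact le_abs_self _
      _ ≤ _ := by gcongr
  have hcl : ∀ x ∈ A, ∀ y ∈ A, k ∣ x - y := by
    simp only [hA, mem_image]
    rintro _ ⟨v, hv, rfl⟩ _ ⟨v', hv', rfl⟩
    obtain ⟨a0, -, a2, -⟩ := hB v hv
    obtain ⟨b0, -, b2, -⟩ := hB v' hv'
    have a4 := a2.goes
    have b4 := b2.goes
    unfold Goes at a4 b4
    rw [a0, hB1 v hv] at a4
    rw [b0, hB1 v' hv'] at b4
    have c3 : IsCoprime k ((3 : ℤ) ^ a) :=
      IsCoprime.pow_right ((Int.prime_three.coprime_iff_not_dvd.2 hk3).symm)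
    exact c3.dvd_of_dvd_mul_left ⟨rho v' - rho v, by linear_combination b4 - a4⟩
  have hmod : ∀ x : ℤ, (M : ℤ) ∣ x - ((x % M).toNat : ℤ) := fun x => by
    rw [Int.toNat_of_nonneg (Int.emod_nonneg _ hM'.ne')]
    exact Int.dvd_self_sub_emod
  rw [← sum_fiberwise_of_maps_to (g := fun x : ℤ => (x % M).toNat) (t := range M) fun x _ => by
    have := Int.emod_lt_of_pos x hM'
    have := Int.emod_nonneg x hM'.ne'
    rw [mem_range]
    omega]
  have h2 : ∀ y ∈ range M, ∑ x ∈ A.filter (fun x : ℤ => (x % M).toNat = y), φ x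
      ≤ (K / w / M + 1) * φ y := by
    intro y _
    rw [sum_congr rfl (g := fun _ => φ y) fun x hx => hper _ _ (by
      rw [← (mem_filter.1 hx).2]
      exact hmod x), sum_const, nsmul_eq_mul]
    refine mul_le_mul_of_nonneg_right ?_ (h0 _)
    refine (card_cong _ (M := M * |k|) (mul_pos hM' (abs_pos.2 hk0)) (by positivity) ?_
      fun x hx y hy => h1 x (mem_filter.1 hx).1 y (mem_filter.1 hy).1).trans (le_of_eq ?_)
    · intro x hx z hz
      have h3 := dvd_sub (hmod x) (hmod z)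
      rw [(mem_filter.1 hx).2, (mem_filter.1 hz).2, sub_sub_sub_cancel_right] at h3
      exact (hMk.abs_right).mul_dvd h3
        ((abs_dvd _ _).2 (hcl x (mem_filter.1 hx).1 z (mem_filter.1 hz).1))
    · push_cast
      field_simp
  refine (mul_le_mul_of_nonneg_left ((sum_le_sum h2).trans_eq (mul_sum _ _ _).symm)
    hw.le).trans ?_
  calc w * ((K / w / M + 1) * ∑ y ∈ range M, φ y)
      ≤ w * ((K / w / M + 1) * (M * ε)) := by gcongr
    _ = (K + w * M) * ε := by field_simp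
    _ ≤ _ := by gcongr

open Classical in
theorem err_le {C : ℝ} (hC0 : 0 ≤ C)
    (hC : ∀ (k : ℤ) (h : ℕ → ℝ) (n : ℕ), ¬ 3 ∣ k → (∀ j, |h j| ≤ 1) → 1 ≤ n →
      ∑ x ∈ range (3 ^ (n + 1)), |Th k h n x| ≤ 3 ^ (n + 1) * (C / (n : ℝ) ^ 3))
    {k : ℤ} (hk : Odd k) (hk3 : ¬ 3 ∣ k) (r : ℤ) {H σ m : ℕ} (hH : H + 1 ≤ m) (hσ : 99 * m ≤ σ)
    {Y : ℝ} (hY : 0 < Y) :
    ∑ v ∈ W (σ + m) with Good H (v.take σ), dl k v r * pot (Y * om v * (3 / 2))
      ≤ (σ + 1 : ℕ) * (((∑ p ∈ range (100 * (H + 1) + 1), F k p r + 1) + 1)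
        * (C / (m : ℝ) ^ 3)) := by
  set K := ∑ p ∈ range (100 * (H + 1) + 1), F k p r + 1 with hK
  have hK0 : 0 ≤ K := add_nonneg (sum_nonneg fun p _ => F_nonneg k p r) zero_le_one
  set h : ℕ → ℕ → ℝ := fun a c => pot (Y * (3 ^ a / 2 ^ σ * (3 ^ c / 2 ^ m)) * (3 / 2)) with hh
  have e : ∑ v ∈ W (σ + m) with Good H (v.take σ), dl k v r * pot (Y * om v * (3 / 2))
      = ∑ u ∈ W σ with Good H u ∧ Valid k u r, om u * Th k (h (ones u)) m (pre k u r) := by
    rw [sum_filter, sum_filter, sum_W_add]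
    refine sum_congr rfl fun u hu => ?_
    rw [mem_W] at hu
    simp only [List.take_left' hu, dl_append, wt]
    by_cases h1 : Good H u
    · by_cases h2 : Valid k u r
      · simp only [h1, h2, and_self, if_true, Th, mul_sum]
        refine sum_congr rfl fun w hw => ?_
        rw [om_append, hh, om, om, hu, mem_W.1 hw]
        ring
      · simp [h2]
    · simp [h1]
  rw [e, ← sum_fiberwise_of_maps_to (g := ones) (t := range (σ + 1)) fun v hv => by
    have := ones_le v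
    have := mem_W.1 (mem_filter.1 hv).1
    rw [mem_range]
    omega]
  refine (sum_le_card_nsmul _ _ ((K + 1) * (C / (m : ℝ) ^ 3)) fun a _ => ?_).trans
    (by rw [card_range, nsmul_eq_mul])
  rcases (((W σ).filter fun u => Good H u ∧ Valid k u r).filter
    fun u => ones u = a).eq_empty_or_nonempty with h0 | ⟨u0, hu0⟩
  · rw [h0, sum_empty]
    positivity
  refine (sum_le_sum fun u hu => ?_).trans (interval (r := r) hk hk3 (φ := fun x => |Th k (h a) m x|)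
    (fun x => abs_nonneg _) (M := 3 ^ (m + 1)) (by positivity) ?_ ?_ ?_ _ (s := σ) (a := a) hK0
    (om_pos u0) ?_ ?_ fun v hv => (mem_filter.1 hv).2)
  · rw [(mem_filter.1 hu).2]
    exact mul_le_mul_of_nonneg_left (le_abs_self _) (om_pos u).le
  · rw [Nat.cast_pow, Nat.cast_ofNat]
    exact IsCoprime.pow_left (Int.prime_three.coprime_iff_not_dvd.2 hk3)
  · intro x y hxy
    rw [Th_congr _ (by exact_mod_cast hxy)]
  · rw [Nat.cast_pow, Nat.cast_ofNat]
    refine hC k _ m hk3 (fun j => ?_) (by omega)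
    rw [abs_of_nonneg (pot_nonneg (by positivity))]
    exact pot_le (by positivity)
  · simp only [mem_filter, mem_W] at hu0
    have h1 := hu0.1.2.1.om_le le_rfl
    rw [List.take_length, hu0.1.1] at h1
    calc om u0 * ((3 ^ (m + 1) : ℕ) : ℝ) ≤ 3 ^ H * (93 / 100) ^ σ * 3 ^ (m + 1) := by
          push_cast
          gcongr
      _ = 3 ^ (H + (m + 1)) * (93 / 100) ^ σ := by ring
      _ ≤ 3 ^ (2 * m) * (93 / 100) ^ (99 * m) :=
          mul_le_mul (pow_le_pow_right₀ (by norm_num) (by omega))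
            (pow_le_pow_of_le_one (by norm_num) (by norm_num) hσ) (by positivity) (by positivity)
      _ ≤ 1 := by
          rw [pow_mul, pow_mul, ← mul_pow]
          exact pow_le_one₀ (by positivity) (by norm_num)
  · intro v hv
    simp only [mem_filter, mem_W] at hu0 hv
    exact ⟨hv.1.1, by rw [om, om, hv.2, hu0.2, hv.1.1, hu0.1.1], hv.1.2.2,
      hv.1.2.1.sg_le_F hv.1.2.2⟩

theorem Rp_step {C : ℝ} (hC0 : 0 ≤ C)
    (hC : ∀ (k : ℤ) (h : ℕ → ℝ) (n : ℕ), ¬ 3 ∣ k → (∀ j, |h j| ≤ 1) → 1 ≤ n →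
      ∑ x ∈ range (3 ^ (n + 1)), |Th k h n x| ≤ 3 ^ (n + 1) * (C / (n : ℝ) ^ 3))
    {k : ℤ} (hk : Odd k) (hk3 : ¬ 3 ∣ k) (r : ℤ) {H s : ℕ} (hs : 100 * (H + 1) ≤ s)
    {Y : ℝ} (hY : 0 < Y) {S : ℝ} (hS : ∑ p ∈ range (100 * (H + 1) + 1), F k p r = S)
    (hS1 : 1 ≤ S) :
    Rp k r H Y (s + 1) + (Cnt k r H Y s).card / (30 * Y)
      ≤ Rp k r H Y s + 4 * 200 ^ 3 * C * (2 * S) / (s : ℝ) ^ 2 := by
  refine (Rp_succ k r H hY s).trans (add_le_add le_rfl ?_)
  have h2 := err_le hC0 hC hk hk3 r (H := H) (σ := s - s / 100) (m := s / 100) (by omega)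
    (by omega) hY
  rw [show s - s / 100 + s / 100 = s by omega, hS] at h2
  refine h2.trans ?_
  have hs0 : (0 : ℝ) < s := by exact_mod_cast (by omega : 0 < s)
  have a1 : ((s - s / 100 + 1 : ℕ) : ℝ) ≤ 2 * s := by
    exact_mod_cast (by omega : s - s / 100 + 1 ≤ 2 * s)
  have a2 : (s : ℝ) / 200 ≤ (s / 100 : ℕ) := by
    rw [div_le_iff₀ (by norm_num)]
    exact_mod_cast (by omega : s ≤ s / 100 * 200)
  have a3 : (S + 1) + 1 ≤ 2 * (2 * S) := by linarith
  calc ((s - s / 100 + 1 : ℕ) : ℝ) * (((S + 1) + 1) * (C / ((s / 100 : ℕ) : ℝ) ^ 3))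
      ≤ (2 * s) * ((2 * (2 * S)) * (C / ((s : ℝ) / 200) ^ 3)) := by gcongr
    _ = _ := by
        field_simp
        ring

/-- The number of good backward words that end below a given size. -/
theorem visits : ∃ C : ℝ, 0 ≤ C ∧ ∀ (k r : ℤ) (H : ℕ) (Y : ℝ) (n : ℕ), Odd k → ¬ 3 ∣ k → 0 < Y →
    ∑ s ∈ range n, ((Cnt k r H Y s).card : ℝ)
      ≤ Y * (C * 2 * ∑ p ∈ range (100 * (H + 1) + 1), F k p r) := by
  obtain ⟨C, hC0, hC⟩ := mix
  refine ⟨31 + 60 * (4 * 200 ^ 3 * C), by positivity, fun k r H Y n hk hk3 hY => ?_⟩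
  obtain ⟨S, hS⟩ : ∃ S, ∑ p ∈ range (100 * (H + 1) + 1), F k p r = S := ⟨_, rfl⟩
  have hF : ∀ p ≤ 100 * (H + 1), F k p r ≤ S := fun p hp => by
    rw [← hS]
    exact single_le_sum (f := fun p => F k p r) (fun p _ => F_nonneg k p r) (mem_range.2 (by omega))
  have hS1 : 1 ≤ S := (F_zero k r).ge.trans (hF 0 (by omega))
  have h1 := tele (L := 100 * (H + 1)) (by omega) (by positivity) (Rp_nonneg k r H hY)
    (fun s hs => Rp_step hC0 hC hk hk3 r hs hY hS hS1) (Nat.le_add_right _ n)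
  have h3 : ∑ s ∈ range n, ((Cnt k r H Y s).card : ℝ)
      ≤ ∑ s ∈ range (100 * (H + 1)), ((Cnt k r H Y s).card : ℝ)
        + ∑ s ∈ Ico (100 * (H + 1)) (100 * (H + 1) + n), ((Cnt k r H Y s).card : ℝ) := by
    rw [sum_range_add_sum_Ico _ (by omega)]
    exact sum_le_sum_of_subset_of_nonneg (range_subset_range.2 (by omega))
      fun _ _ _ => by positivity
  have h4 : ∑ s ∈ range (100 * (H + 1)), ((Cnt k r H Y s).card : ℝ) ≤ Y * S := by
    refine (sum_le_sum fun s _ => Cnt_le k r H hY s).trans ?_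
    rw [← mul_sum, ← hS, sum_range_succ]
    exact mul_le_mul_of_nonneg_left (le_add_of_nonneg_right (F_nonneg _ _ _)) hY.le
  have h5 := (Rp_le k r H hY _).trans (hF _ le_rfl)
  rw [← sum_div, div_le_iff₀ (by positivity)] at h1
  have h8 : Y * S ≤ Y * (2 * S) := mul_le_mul_of_nonneg_left (by linarith) hY.le
  have h9 := mul_le_mul_of_nonneg_left h5 hY.le
  rw [hS]
  linarith

end Pool.Agent.Lib.MP_7f88e4_nt.MP
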